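import Pool.Agent.Lib.MP_2a55c9_gt.Orbits

/-!
# Infinitely many pairwise non-homeomorphic 1/6-homogeneous smooth fans

All definitions used in the statement are in `Pool/Agent/Lib/MP_2a55c9_gt/Defs.lean`.

The fan number `N` has `N + 1` limit legs of height `1`; each limit leg is the limit of countably
many isolated legs whose heights are the points `p k` (`k` an integer) of a strictly increasing
bi-infinite sequence in `(0,1)` converging to `0` and to `1`, every height being used infinitely
often.  Its six orbits are: the top; the ends of isolated legs; the other points (except the top) of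
isolated legs; the ends of limit legs; the points of height `p k` of limit legs; the other points of
limit legs.  The number of ends of limit legs is `N + 1`.
-/

namespace Pool.Agent.Results.MP_2a55c9_gt.SmoothFans

open Pool.Agent.MP2a55c9

/-- There are infinitely many pairwise non-homeomorphic `1/6`-homogeneous smooth fans. -/
theorem result : ∃ (X : ℕ → Type) (_ : ∀ n, MetricSpace (X n)),
    (∀ n, IsSmoothFan (X n) ∧ homogeneityDegree (X n) = 6) ∧
      ∀ i j, i ≠ j → IsEmpty (X i ≃ₜ X j) :=
  ⟨fun N => XX N, fun _ => inferInstance, fun N => ⟨smooth_XX N, degree_XX N⟩,
    fun _ _ h => not_homeo h⟩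

end Pool.Agent.Results.MP_2a55c9_gt.SmoothFans
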